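import Mathlib
import Pool.Agent.H16.AperyPow

set_option autoImplicit false

namespace Pool.Agent.Results.MP_ee0f4e_nt.NoExponent

theorem result :
    ∃ s n : ℕ, 1 < s ∧ ∀ r : ℕ, s < r → ∀ c : ℕ → ℚ,
      (∀ m : ℕ, (∑ k ∈ Finset.range (m + 1), ((m.choose k : ℚ) ^ r * ((m + k).choose k : ℚ) ^ r)) =
        ∑ k ∈ Finset.range (m + 1), ((m.choose k : ℚ) ^ s * ((m + k).choose k : ℚ) ^ s * c k)) →
      ∃ k ≤ n, ∀ z : ℤ, c k ≠ z := by
  refine ⟨2, 17, by norm_num, fun r hr c h => ?_⟩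
  by_contra hc
  push Not at hc
  choose! z hz using hc
  refine Pool.Agent.H16.AperyPow.main r hr z fun m hm => ?_
  have h1 := h m
  rw [Finset.sum_congr rfl (g := fun k => ((m.choose k : ℚ) ^ 2 * ((m + k).choose k : ℚ) ^ 2 * z k))
    (s₁ := Finset.range (m + 1)) (f := fun k => ((m.choose k : ℚ) ^ 2 * ((m + k).choose k : ℚ) ^ 2 * c k))
    fun k hk => by rw [hz k (by simp at hk; omega)]] at h1
  exact_mod_cast h1

end Pool.Agent.Results.MP_ee0f4e_nt.NoExponent
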